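import Pool.Agent.W_f569db_h57.FamDefs
import Pool.Agent.W_f569db_g.Api
import Pool.Agent.WeilH_h6.Rat
import Pool.Agent.WeilH_h6.RatNT

set_option autoImplicit false

/-!
# The standard conjecture `D` for the total space of a family implies `D` for the variety
-/

noncomputable section

namespace H57

open AlgebraicGeometry CategoryTheory MonoidalCategory
open Pool.Agent.WeilH_h6 Pool.Agent.WeilH_h6.VarClass Pool.Agent.WeilH_h6.Weil

universe u v w u' w'

variable {k : Type u} [Field k] {𝒱 : VarClass k} {K : Type v} [Field K] {W : Weil.{u, v, w} 𝒱 K}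
  {k₀ : Type u'} [Field k₀] {𝒱₀ : VarClass k₀} {W₀ : Weil.{u', v, w'} 𝒱₀ K}

/-- A numerically trivial cycle is orthogonal to all classes of cycles, of whatever codimension. -/
theorem Fam_orth {X : 𝒱.Obj} {i : ℕ} {z : Cyc X i} (hz : W.NumTrivial z) {b : W.H X}
    (hb : b ∈ W.ratSpan X) : W.tr X (W.cl z * b) = 0 := by
  refine AddSubmonoid.closure_induction (motive := fun b _ => W.tr X (W.cl z * b) = 0) ?_ ?_ ?_ hb
  · rintro _ ⟨j, z', rfl⟩
    by_cases h : i + j = X.dim
    · exact hz j z' h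
    · exact W.tr_grad X _ _ (W.mul_mem_grad (W.cl_mem_grad z) (W.cl_mem_grad z')) (by omega)
  · rw [mul_zero, map_zero]
  · intro x y _ _ hx hy
    rw [mul_add, map_add, hx, hy, add_zero]

/-- The classes of cycles commute with all classes. -/
theorem Fam_comm {X : 𝒱.Obj} {a : W.H X} (ha : a ∈ W.ratSpan X) (b : W.H X) : b * a = a * b := by
  refine AddSubmonoid.closure_induction (motive := fun a _ => b * a = a * b) ?_ ?_ ?_ ha
  · rintro _ ⟨i, z, rfl⟩
    refine W.hom_induction (P := fun b => b * W.cl z = W.cl z * b) ?_ ?_ ?_ b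
    · rw [zero_mul, mul_zero]
    · intro x y hx hy
      rw [add_mul, mul_add, hx, hy]
    · intro j y hy
      have h := W.graded_comm X j (2 * i) y (W.cl z) hy (W.cl_mem_grad z)
      have h2 : ((-1 : W.H X)) ^ (j * (2 * i)) = 1 := by
        rw [show j * (2 * i) = 2 * (j * i) by ring, pow_mul, neg_one_sq, one_pow]
      rw [h, h2, one_mul]
  · rw [zero_mul, mul_zero]
  · intro x y _ _ hx hy
    rw [add_mul, mul_add, hx, hy]

/-- If `X` has a family with total space `T`, then `D(T)` implies `D(X)`. -/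
theorem Fam_homEqNum [CharZero K] {X : 𝒱.Obj} (F : Family W W₀ X) (hT : W₀.HomEqNum F.T) :
    W.HomEqNum X := by
  intro i z
  refine ⟨fun hz => ?_, fun h j z' _ => by rw [h, zero_mul, map_zero]⟩
  have hzr := W.cl_mem_ratSpan z
  obtain ⟨t, ht, ht1⟩ := F.lifts (W.cl z) hzr
  have ht' : F.r t = W.pull F.f (W.cl z) := ht1
  -- the push-forward `s` to `T` of the restriction of `t` is numerically trivial
  obtain ⟨s, hs, hs1⟩ := F.push t ht
  have hs' : ∀ y : W₀.H F.T, W₀.tr F.T (s * y) = W.tr F.X' (F.r t * F.r y) := hs1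
  have hor : ∀ b ∈ W₀.algSpan F.T, W₀.tr F.T (s * b) = 0 := by
    intro b hb
    refine Submodule.span_induction (p := fun b _ => W₀.tr F.T (s * b) = 0) ?_ ?_ ?_ ?_ hb
    · rintro _ ⟨l, c, rfl⟩
      have hc : F.r (W₀.cl c) ∈ W.ratSpan F.X' := F.cycles _ (W₀.cl_mem_ratSpan c)
      obtain ⟨b, hb, hb2⟩ := W.push_ratSpan F.f hc
      rw [hs', ht', Fam_comm hc, ← hb2, Fam_comm hzr]
      exact Fam_orth hz hb
    · rw [mul_zero, map_zero]
    · intro x y _ _ hx hy
      rw [mul_add, map_add, hx, hy, add_zero]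
    · intro c x _ hx
      rw [mul_smul_comm, map_smul, hx, smul_zero]
  have h0 : s = 0 := W₀.nt_eq_zero_of_homEqNum hT ⟨W₀.ratSpan_le hs, hor⟩
  have h1 : F.r t = 0 := by
    refine F.nondeg t fun y => ?_
    show W.tr F.X' (F.r t * F.r y) = 0
    rw [← hs', h0, zero_mul, map_zero]
  refine F.inj ?_
  show W.pull F.f (W.cl z) = W.pull F.f 0
  rw [map_zero, ← ht', h1]

end H57
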