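import Pool.Agent.W_f569db_g.Defs

set_option autoImplicit false

/-!
# Families
-/

noncomputable section

namespace Pool.Agent.WeilH_h6.Weil

open AlgebraicGeometry CategoryTheory MonoidalCategory
open VarClass

universe u v w u' w'

variable {k : Type u} [Field k] {𝒱 : VarClass k} {K : Type v} [Field K] (W : Weil.{u, v, w} 𝒱 K)
  {k₀ : Type u'} [Field k₀] {𝒱₀ : VarClass k₀} (W₀ : Weil.{u', v, w'} 𝒱₀ K)

/-- `Tr (x y)`. -/
def pair {X : 𝒱.Obj} (x y : W.H X) : K := W.deg (x * y)

/-- `a` is the class of a cycle with rational coefficients. -/
def Rat {X : 𝒱.Obj} (a : W.H X) : Prop := a ∈ W.ratSpan X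

/-- A family with total space `T` over another field `k₀` for the variety `X` over `k` (Weil cohomologies `W₀`
and `W`): a variety `X'` over `k` with a morphism `f : X' → X` such that `H(X) → H(X')` is injective (this is
true if `f` is surjective), a variety `T` over `k₀` (the smooth total space of a family `T → S` over `k₀` with
geometric generic fibre `X'`), and a map `r : H(T) → H(X')` (the restriction) such that

* for every class `a` of a cycle on `T` there is a class `b` of a cycle on `T` (the product of `a` with a
  closed fibre of `T → S`) with `Tr (b y) = Tr (r(a) r(y))` for all `y` in `H(T)`,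
* `r` maps the classes of cycles on `T` to classes of cycles on `X'`,
* the pull-backs to `X'` of the classes of cycles on `X` are images under `r` of classes of cycles on `T`,
* the trace form of `X'` is nondegenerate on the image of `r` (by Deligne this image consists of the invariants
  of the monodromy, which is semisimple). -/
structure Family (X : 𝒱.Obj) where
  X' : 𝒱.Obj
  f : X' ⟶ X
  T : 𝒱₀.Obj
  r : W₀.H T → W.H X'
  inj : Function.Injective (W.pb f)
  push : ∀ a, W₀.Rat a → ∃ b, W₀.Rat b ∧ ∀ y, W₀.pair b y = W.pair (r a) (r y)
  cycles : ∀ a, W₀.Rat a → W.Rat (r a)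
  lifts : ∀ a, W.Rat a → ∃ b, W₀.Rat b ∧ r b = W.pb f a
  nondeg : ∀ x, (∀ y, W.pair (r x) (r y) = 0) → r x = 0

end Pool.Agent.WeilH_h6.Weil
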